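import Mathlib
import Pool.Agent.X78.SumFreeHit

/-!
# MP_b5ddc9_co: lower bounds for Ramsey numbers of subspaces of `𝔽₂ⁿ`

`R^{(r)}(2; d) ≥ (2 - o(1)) d` for every `r ≥ 2` (in particular for `r = 2` and for `r = 1000`).

Method: take a random set `A` of density `≍ d² 2^{-d}` in `𝔽₂ⁿ`, `n ≤ (2 - ε) d`, and delete all
points which lie in a Schur triple `{x, y, x + y} ⊆ A`. A union bound over all subspaces `V` of
dimension `d` works: with very high probability `V` contains many points of `A`, every vector is the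
sum of a bounded number of pairs of `A`, and there are few disjoint triples which meet `V`.
-/

namespace Pool.Agent.Results.MP_b5ddc9_co.TwoMinusEpsilon

open Finset Filter Topology Pool.Agent.X78.SumFreeHit

/-- All nonzero vectors of the subspace `V` have colour `i`. -/
def Mono {n r : ℕ} (χ : (Fin n → ZMod 2) → Fin r) (V : Submodule (ZMod 2) (Fin n → ZMod 2))
    (i : Fin r) : Prop :=
  ∀ v ∈ V, v ≠ 0 → χ v = i

/-- The property of `n` in the definition of `R^{(r)}(2; d)`: for every colouring of the nonzero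
vectors of `𝔽₂ⁿ` with `r` colours there is a monochromatic subspace of dimension 2 in one of the
first `r - 1` colours or a monochromatic subspace of dimension `d` in the last colour
(the colours are `0, 1, ..., r - 1`; the colour of the zero vector plays no role). -/
def Forces (r d n : ℕ) : Prop :=
  ∀ χ : (Fin n → ZMod 2) → Fin r,
    (∃ i : Fin r, (i : ℕ) + 1 < r ∧ ∃ V : Submodule (ZMod 2) (Fin n → ZMod 2),
      Module.finrank (ZMod 2) V = 2 ∧ Mono χ V i) ∨
    (∃ i : Fin r, (i : ℕ) + 1 = r ∧ ∃ V : Submodule (ZMod 2) (Fin n → ZMod 2),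
      Module.finrank (ZMod 2) V = d ∧ Mono χ V i)

theorem card_submodule {n d : ℕ} (V : Submodule (ZMod 2) (Fin n → ZMod 2))
    (hV : Module.finrank (ZMod 2) V = d) : Nat.card V = 2 ^ d := by
  rw [Module.natCard_eq_pow_finrank (K := ZMod 2), hV, Nat.card_zmod]

/-- A sum-free set which meets every subspace of dimension `d`. -/
theorem exists_set {ε : ℝ} (hε : 0 < ε) :
    ∀ᶠ d : ℕ in atTop, ∀ n : ℕ, (n : ℝ) ≤ (2 - ε) * d →
      ∃ A : Finset (Fin n → ZMod 2), (0 : Fin n → ZMod 2) ∉ A ∧
        (∀ x ∈ A, ∀ y ∈ A, x + y ∉ A) ∧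
        ∀ V : Submodule (ZMod 2) (Fin n → ZMod 2), Module.finrank (ZMod 2) V = d →
          ∃ x ∈ V, x ∈ A := by
  classical
  obtain ⟨T, K, hTK⟩ := eventually_lt hε
  filter_upwards [hTK] with d hd n hn
  have h2 : ∀ x : Fin n → ZMod 2, x + x = 0 := by
    intro x
    funext i
    exact CharTwo.add_self_eq_zero (x i)
  set 𝓥 : Finset (Finset (Fin n → ZMod 2)) :=
    ((Finset.univ : Finset (Fin d → (Fin n → ZMod 2))).image (fun g =>
      (Finset.univ.filter (fun x => x ∈ Submodule.span (ZMod 2) (Set.range g))).erase 0)).filter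
      (fun V => V.card = 2 ^ d - 1) with h𝓥
  have hcardG : Fintype.card (Fin n → ZMod 2) = 2 ^ n := by simp [ZMod.card]
  have hN : 𝓥.card ≤ 2 ^ (n * d) := by
    refine (Finset.card_filter_le _ _).trans (Finset.card_image_le.trans ?_)
    rw [Finset.card_univ, Fintype.card_fun, hcardG, Fintype.card_fin, ← pow_mul]
  obtain ⟨p, hp0, hp1, hm, hmv, hlt⟩ := hd n 𝓥.card hn hN
  obtain ⟨A, hA0, hA1, hA2⟩ := exists_sumfree h2 𝓥 hp0 hp1 T (T * d) (K * d) (2 ^ d - 1)
    (by
      intro V hV h0
      obtain ⟨g, -, rfl⟩ := Finset.mem_image.1 (Finset.mem_filter.1 hV).1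
      exact (Finset.mem_erase.1 h0).1 rfl)
    (fun V hV => (Finset.mem_filter.1 hV).2) hm hmv (by rw [hcardG]; exact hlt)
  refine ⟨A, hA0, hA1, ?_⟩
  intro V hV
  let b := Module.finBasisOfFinrankEq (ZMod 2) V hV
  have hspan : Submodule.span (ZMod 2) (Set.range (fun i => (b i : Fin n → ZMod 2))) = V := by
    have h1 : Set.range (fun i => (b i : Fin n → ZMod 2)) = V.subtype '' (Set.range b) := by
      rw [← Set.range_comp]; rfl
    rw [h1, Submodule.span_image, b.span_eq, Submodule.map_top, Submodule.range_subtype]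
  have hmem : (Finset.univ.filter (fun x => x ∈ V)).erase 0 ∈ 𝓥 := by
    rw [h𝓥, Finset.mem_filter, Finset.mem_image]
    refine ⟨⟨fun i => (b i : Fin n → ZMod 2), Finset.mem_univ _, ?_⟩, ?_⟩
    · rw [hspan]
    · rw [Finset.card_erase_of_mem (by simp)]
      have h3 := card_submodule V hV
      rw [Nat.card_eq_fintype_card, Fintype.card_subtype] at h3
      rw [h3]
  obtain ⟨x, hx1, hx2⟩ := hA2 _ hmem
  exact ⟨x, (Finset.mem_filter.1 (Finset.mem_erase.1 hx1).2).2, hx2⟩

/-- **Lower bound.** For every `r ≥ 2` and `ε > 0` and all large `d`, every `n` with the property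
which defines `R^{(r)}(2; d)` is at least `(2 - ε) d`. In particular (`r = 1000`, `c = 1 / 2`) the
answer to Q1 is yes. -/
theorem result :
    (∀ r : ℕ, 2 ≤ r → ∀ ε : ℝ, 0 < ε →
      ∀ᶠ d : ℕ in atTop, ∀ n : ℕ, Forces r d n → (2 - ε) * (d : ℝ) ≤ n) ∧
    (∃ c : ℝ, 0 < c ∧ ∀ ε : ℝ, 0 < ε →
      ∀ᶠ d : ℕ in atTop, ∀ n : ℕ, Forces 1000 d n → (3 / 2 + c - ε) * (d : ℝ) ≤ n) := by
  classical
  have main : ∀ r : ℕ, 2 ≤ r → ∀ ε : ℝ, 0 < ε →
      ∀ᶠ d : ℕ in atTop, ∀ n : ℕ, Forces r d n → (2 - ε) * (d : ℝ) ≤ n := by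
    intro r hr ε hε
    filter_upwards [exists_set hε] with d hd n hn
    by_contra hcon
    push Not at hcon
    obtain ⟨A, hA0, hA1, hA2⟩ := hd n hcon.le
    rcases hn (fun v => if v ∈ A then ⟨0, by omega⟩ else ⟨r - 1, by omega⟩) with
      ⟨i, hi, V, hV, hmono⟩ | ⟨i, hi, V, hV, hmono⟩
    · have hVA : ∀ v ∈ V, v ≠ 0 → v ∈ A := by
        intro v hv hv0
        by_contra hvA
        have h1 := hmono v hv hv0
        simp only [if_neg hvA] at h1
        rw [← h1] at hi
        simp only at hi
        omega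
      have hcard := card_submodule V hV
      have h3 : ∃ x ∈ V, x ≠ 0 ∧ ∃ y ∈ V, y ≠ 0 ∧ y ≠ x := by
        by_contra hno
        push Not at hno
        have hle : Nat.card V ≤ 2 := by
          by_cases hx : ∃ x ∈ V, x ≠ 0
          · obtain ⟨x, hx1, hx2⟩ := hx
            have hsub : (V : Set (Fin n → ZMod 2)) ⊆ ({0, x} : Finset (Fin n → ZMod 2)) := by
              intro y hy
              by_cases hy0 : y = 0
              · simp [hy0]
              · simp [hno x hx1 hx2 y hy hy0]
            have h4 := Set.ncard_le_ncard hsub (Finset.finite_toSet _)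
            rw [Set.ncard_coe_finset] at h4
            exact le_trans (by rw [← Nat.card_coe_set_eq] at h4; exact h4) Finset.card_le_two
          · push Not at hx
            have hsub : (V : Set (Fin n → ZMod 2)) ⊆ ({0} : Finset (Fin n → ZMod 2)) := by
              intro y hy
              simp [hx y hy]
            have h4 := Set.ncard_le_ncard hsub (Finset.finite_toSet _)
            rw [Set.ncard_coe_finset, ← Nat.card_coe_set_eq] at h4
            exact le_trans h4 (by rw [Finset.card_singleton]; norm_num)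
        rw [hcard] at hle
        norm_num at hle
      obtain ⟨x, hx, hx0, y, hy, hy0, hyx⟩ := h3
      refine hA1 x (hVA x hx hx0) y (hVA y hy hy0) (hVA _ (V.add_mem hx hy) ?_)
      intro h0
      apply hyx
      have h5 : x + x = 0 := by
        funext i
        exact CharTwo.add_self_eq_zero (x i)
      have h6 : x + y = x + x := h0.trans h5.symm
      exact add_left_cancel h6
    · obtain ⟨x, hxV, hxA⟩ := hA2 V hV
      have h1 := hmono x hxV (fun h => hA0 (h ▸ hxA))
      simp only [if_pos hxA] at h1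
      rw [← h1] at hi
      simp only at hi
      omega
  refine ⟨main, 1 / 2, by norm_num, fun ε hε => ?_⟩
  filter_upwards [main 1000 (by norm_num) ε hε] with d hd n hn
  have := hd n hn
  have h : (3 / 2 + 1 / 2 - ε : ℝ) = 2 - ε := by ring
  rw [h]
  exact this

end Pool.Agent.Results.MP_b5ddc9_co.TwoMinusEpsilon
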